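import Pool.Agent.H8.JS.Targets

/-!
NE and spectra (MP_64fb07_lc), module HS: the sequence of the halvings.
-/

set_option autoImplicit false

namespace Pool.Agent.H56.JS

open Pool.Agent.H8.JS

theorem pf_hs (hNU : J_NU) : J_HS := by
  intro x
  refine ⟨by simp, ?_, ?_⟩
  · rw [Nat.sub_self, List.take_zero]
    exact hNU.1
  · intro p i b hp hb
    have e1 : x.length - i = p + 1 := by omega
    have e2 : x.length - (i + 1) = p := by omega
    rw [e1, e2, List.take_succ, hb]
    exact hNU.2.1 _ _

end Pool.Agent.H56.JS
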